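import Pool.Agent.Lib_MP_bb931d_co.Final
import Pool.Agent.Lib_MP_bb931d_co.Example

set_option autoImplicit false

namespace Pool.Agent.Results.MP_bb931d_co.RankFive

universe u v

/-- The element of the free abelian group with basis `P` given by the multiset `m` over `P`
(multisets over `P` are the elements of the free abelian monoid with basis `P`). -/
noncomputable def toInt {P : Type v} (m : Multiset P) : P →₀ ℤ :=
  (m.map fun q => Finsupp.single q (1 : ℤ)).sum

/-- A divisor theory of the commutative monoid `H` with set of prime divisors `P`: a homomorphism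
`φ` from `H` to the free abelian monoid with basis `P` (written as multisets over `P`), such that
`a` divides `b` whenever `φ a` divides `φ b`, and such that every `q : P` is the greatest common
divisor of the images of finitely many elements of `H`. -/
structure DivisorTheory (H : Type u) [CommMonoid H] (P : Type v) where
  /-- the homomorphism -/
  φ : H → Multiset P
  map_one : φ 1 = 0
  map_mul : ∀ a b : H, φ (a * b) = φ a + φ b
  dvd_of_le : ∀ a b : H, φ a ≤ φ b → a ∣ b
  gcd_eq : ∀ q : P, ∃ s : Finset H, ∀ m : Multiset P, (∀ a ∈ s, m ≤ φ a) ↔ m ≤ {q}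

/-- The class group: the free abelian group with basis `P` modulo the subgroup generated by the
image of `H`. -/
abbrev DivisorTheory.ClassGroup {H : Type u} [CommMonoid H] {P : Type v}
    (T : DivisorTheory H P) : Type v :=
  (P →₀ ℤ) ⧸ AddSubgroup.closure (Set.range fun a : H => toInt (T.φ a))

/-- The set of lengths of `a`: `{0}` for a unit, and otherwise the set of all `l` such that `a` is
a product of `l` irreducible elements. -/
def lengths {H : Type u} [CommMonoid H] (a : H) : Set ℕ :=
  {l | (IsUnit a ∧ l = 0) ∨ (¬ IsUnit a ∧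
    ∃ s : Multiset H, (∀ x ∈ s, Irreducible x) ∧ s.prod = a ∧ Multiset.card s = l)}

/-- `ρ_k(H)`, the supremum of all `l` such that some `a` in `H` has both lengths `k` and `l`. -/
noncomputable def rho (H : Type u) [CommMonoid H] (k : ℕ) : ℕ∞ :=
  sSup {x : ℕ∞ | ∃ a : H, k ∈ lengths a ∧ ∃ l ∈ lengths a, x = l}

/-- The minimal zero-sum sequences over `G`. -/
def MinZeroSum {G : Type} [AddCommGroup G] (A : Multiset G) : Prop :=
  A ≠ 0 ∧ A.sum = 0 ∧ ∀ B : Multiset G, B ≤ A → B ≠ 0 → B.sum = 0 → B = A

/-! ### The free abelian group -/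

section free
variable {P : Type v}

lemma toInt_zero : toInt (0 : Multiset P) = 0 := by simp [toInt]

lemma toInt_add (m n : Multiset P) : toInt (m + n) = toInt m + toInt n := by
  simp [toInt]

lemma toInt_singleton (q : P) : toInt ({q} : Multiset P) = Finsupp.single q 1 := by
  simp [toInt]

lemma toInt_replicate (n : ℕ) (q : P) :
    toInt (Multiset.replicate n q) = Finsupp.single q (n : ℤ) := by
  simp [toInt, Multiset.map_replicate, Multiset.sum_replicate]

lemma toInt_apply [DecidableEq P] (m : Multiset P) (q : P) : toInt m q = (m.count q : ℤ) := by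
  induction m using Multiset.induction with
  | empty => simp [toInt]
  | cons a m ih =>
    rw [← Multiset.singleton_add, toInt_add, Finsupp.add_apply, ih, Multiset.count_add,
      toInt_singleton, Multiset.count_singleton, Finsupp.single_apply]
    by_cases h : a = q
    · simp [h]
    · rw [if_neg h, if_neg (fun h' => h h'.symm)]; simp

lemma toInt_injective : Function.Injective (toInt : Multiset P → P →₀ ℤ) := by
  classical
  intro m n h
  ext q
  have := DFunLike.congr_fun h q
  rw [toInt_apply, toInt_apply] at this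
  exact_mod_cast this

lemma exists_sub (x : P →₀ ℤ) : ∃ m n : Multiset P, x = toInt m - toInt n := by
  induction x using Finsupp.induction_linear with
  | zero => exact ⟨0, 0, by simp⟩
  | add x y hx hy =>
    obtain ⟨m, n, rfl⟩ := hx
    obtain ⟨m', n', rfl⟩ := hy
    exact ⟨m + m', n + n', by rw [toInt_add, toInt_add]; abel⟩
  | single q c =>
    refine ⟨Multiset.replicate c.toNat q, Multiset.replicate (-c).toNat q, ?_⟩
    rw [toInt_replicate, toInt_replicate, ← Finsupp.single_sub]
    congr 1
    omega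

end free

/-! ### From a Krull monoid to its class group -/

section krull
variable {H : Type u} [CommMonoid H] {P : Type v} (T : DivisorTheory H P)

lemma DivisorTheory.exists_of_mem {x : P →₀ ℤ}
    (hx : x ∈ AddSubgroup.closure (Set.range fun a : H => toInt (T.φ a))) :
    ∃ a b : H, x = toInt (T.φ a) - toInt (T.φ b) := by
  induction hx using AddSubgroup.closure_induction with
  | mem x hx =>
    obtain ⟨a, rfl⟩ := hx
    exact ⟨a, 1, by rw [T.map_one, toInt_zero]; simp⟩
  | zero => exact ⟨1, 1, by simp⟩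
  | add x y _ _ hx hy =>
    obtain ⟨a, b, rfl⟩ := hx
    obtain ⟨a', b', rfl⟩ := hy
    refine ⟨a * a', b * b', ?_⟩
    rw [T.map_mul, T.map_mul, toInt_add, toInt_add]; abel
  | neg x _ hx =>
    obtain ⟨a, b, rfl⟩ := hx
    exact ⟨b, a, by abel⟩

/-- The classes of the elements of a multiset of primes. -/
noncomputable def DivisorTheory.cls {G : Type} [AddCommGroup G] (e : T.ClassGroup ≃+ G) (q : P) :
    G := e (QuotientAddGroup.mk (Finsupp.single q 1))

lemma DivisorTheory.map_cls_sum {G : Type} [AddCommGroup G] (e : T.ClassGroup ≃+ G)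
    (m : Multiset P) : (m.map (T.cls e)).sum = e (QuotientAddGroup.mk (toInt m)) := by
  induction m using Multiset.induction with
  | empty =>
    rw [toInt_zero, Multiset.map_zero, Multiset.sum_zero, QuotientAddGroup.mk_zero, map_zero]
  | cons a m ih =>
    rw [Multiset.map_cons, Multiset.sum_cons, ih, ← Multiset.singleton_add, toInt_add,
      toInt_singleton, QuotientAddGroup.mk_add, map_add]
    rfl

lemma DivisorTheory.exists_of_sum {G : Type} [AddCommGroup G] (e : T.ClassGroup ≃+ G)
    {m : Multiset P} (h : (m.map (T.cls e)).sum = 0) : ∃ a : H, T.φ a = m := by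
  rw [T.map_cls_sum] at h
  have h1 : (QuotientAddGroup.mk (toInt m) : T.ClassGroup) = 0 := by
    simpa using h
  rw [QuotientAddGroup.eq_zero_iff] at h1
  obtain ⟨a, b, hab⟩ := T.exists_of_mem h1
  have h2 : toInt (m + T.φ b) = toInt (T.φ a) := by rw [toInt_add, hab]; abel
  have h3 := toInt_injective h2
  obtain ⟨c, rfl⟩ := T.dvd_of_le b a (by rw [← h3]; exact Multiset.le_add_left _ _)
  refine ⟨c, ?_⟩
  rw [T.map_mul, add_comm] at h3
  exact (add_left_cancel h3).symm

lemma DivisorTheory.sum_eq_zero {G : Type} [AddCommGroup G] (e : T.ClassGroup ≃+ G) (a : H) :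
    ((T.φ a).map (T.cls e)).sum = 0 := by
  rw [T.map_cls_sum]
  have h1 : (QuotientAddGroup.mk (toInt (T.φ a)) : T.ClassGroup) = 0 := by
    rw [QuotientAddGroup.eq_zero_iff]
    exact AddSubgroup.subset_closure ⟨a, rfl⟩
  rw [h1, map_zero]

lemma DivisorTheory.isUnit {a : H} (h : T.φ a = 0) : IsUnit a := by
  have := T.dvd_of_le a 1 (by rw [h]; exact Multiset.zero_le _)
  exact isUnit_of_dvd_one this

lemma DivisorTheory.eq_zero {a : H} (h : IsUnit a) : T.φ a = 0 := by
  obtain ⟨b, hb⟩ := h.exists_right_inv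
  have := T.map_mul a b
  rw [hb, T.map_one] at this
  exact (add_eq_zero.mp this.symm).1

lemma DivisorTheory.atom {G : Type} [AddCommGroup G] [DecidableEq G] (e : T.ClassGroup ≃+ G)
    {x : H} (hx : Irreducible x) : MinZeroSum ((T.φ x).map (T.cls e)) := by
  refine ⟨?_, T.sum_eq_zero e x, ?_⟩
  · intro h
    rw [Multiset.map_eq_zero] at h
    exact hx.not_isUnit (T.isUnit h)
  · intro B hB hne hs
    obtain ⟨m, hm, rfl⟩ := Pool.Agent.Rho.exists_le_of_le_map (T.cls e) (T.φ x) B hB
    obtain ⟨n, hn⟩ := Multiset.le_iff_exists_add.mp hm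
    have hns : (n.map (T.cls e)).sum = 0 := by
      have := T.sum_eq_zero e x
      rw [hn, Multiset.map_add, Multiset.sum_add, hs, zero_add] at this
      exact this
    obtain ⟨a, ha⟩ := T.exists_of_sum e hs
    obtain ⟨b, hb⟩ := T.exists_of_sum e hns
    have hab : T.φ (a * b) = T.φ x := by rw [T.map_mul, ha, hb, hn]
    obtain ⟨w, hw⟩ := T.dvd_of_le (a * b) x hab.le
    have hw' : x = a * (b * w) := by rw [hw]; exact mul_assoc _ _ _
    rcases hx.isUnit_or_isUnit hw' with h | h
    · exfalso
      apply hne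
      rw [← ha, T.eq_zero h, Multiset.map_zero]
    · have hb0 : T.φ b = 0 := T.eq_zero (isUnit_of_mul_isUnit_left h)
      rw [hn, ← hb, hb0, add_zero]

lemma DivisorTheory.map_prod (s : Multiset H) : T.φ s.prod = (s.map T.φ).sum := by
  induction s using Multiset.induction with
  | empty => simp [T.map_one]
  | cons a s ih => rw [Multiset.prod_cons, T.map_mul, Multiset.map_cons, Multiset.sum_cons, ih]

lemma map_sum_map {α β : Type*} (f : α → β) (S : Multiset (Multiset α)) :
    S.sum.map f = (S.map (Multiset.map f)).sum := by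
  induction S using Multiset.induction with
  | empty => simp
  | cons a S ih => rw [Multiset.sum_cons, Multiset.map_add, Multiset.map_cons,
      Multiset.sum_cons, ih]

/-- The transfer to sequences over the class group. -/
lemma DivisorTheory.transfer {G : Type} [AddCommGroup G] [DecidableEq G] (e : T.ClassGroup ≃+ G)
    {a : H} {k l : ℕ} (hk : k ∈ lengths a) (hl : l ∈ lengths a) (hk0 : k ≠ 0) :
    ∃ XS YS : Multiset (Multiset G), (∀ A ∈ XS, MinZeroSum A) ∧ (∀ A ∈ YS, MinZeroSum A) ∧
      Multiset.card XS = k ∧ Multiset.card YS = l ∧ XS.sum = YS.sum := by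
  rcases hk with ⟨_, h⟩ | ⟨hu, s, hs, hsp, hsc⟩
  · exact absurd h hk0
  rcases hl with ⟨h, _⟩ | ⟨_, t, ht, htp, htc⟩
  · exact absurd h hu
  refine ⟨s.map fun x => (T.φ x).map (T.cls e), t.map fun x => (T.φ x).map (T.cls e), ?_, ?_,
    by rw [Multiset.card_map, hsc], by rw [Multiset.card_map, htc], ?_⟩
  · intro A hA
    obtain ⟨x, hx, rfl⟩ := Multiset.mem_map.mp hA
    exact T.atom e (hs x hx)
  · intro A hA
    obtain ⟨x, hx, rfl⟩ := Multiset.mem_map.mp hA
    exact T.atom e (ht x hx)
  · have h1 : ∀ r : Multiset H, (r.map fun x => (T.φ x).map (T.cls e)).sum =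
        (T.φ r.prod).map (T.cls e) := by
      intro r
      rw [T.map_prod, map_sum_map, Multiset.map_map]
      rfl
    rw [h1, h1, hsp, htp]

end krull

/-! ### The general upper bound -/

lemma length_le {G : Type} [AddCommGroup G] [DecidableEq G] {D : ℕ} (hD : 2 ≤ D)
    (hG : ∀ A : Multiset G, MinZeroSum A → Multiset.card A ≤ D) (k : ℕ)
    (XS YS : Multiset (Multiset G)) (hX : ∀ A ∈ XS, MinZeroSum A) (hY : ∀ A ∈ YS, MinZeroSum A)
    (cX : Multiset.card XS = 2 * k + 1) (h : XS.sum = YS.sum) :
    Multiset.card YS ≤ k * D + D / 2 := by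
  have hup : ∀ A ∈ XS, A.card + (D - 1) * A.count 0 ≤ D := by
    intro A hA
    have hA' : Pool.Agent.Rho.Atom A := hX A hA
    by_cases h0 : (0 : G) ∈ A
    · rw [hA'.eq_zero_singleton h0]
      simp
      omega
    · rw [Multiset.count_eq_zero_of_notMem h0]
      have := hG A (hX A hA)
      omega
  have hlo : ∀ A ∈ YS, 2 ≤ A.card + A.count 0 := by
    intro A hA
    have hA' : Pool.Agent.Rho.Atom A := hY A hA
    have hpos := hA'.card_pos
    by_cases h1 : A.card = 1
    · rw [hA'.card_one h1]; simp
    · omega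
  have hs1 := Pool.Agent.Rho.msum_le (fun A : Multiset G => A.card + (D - 1) * A.count 0)
    D XS hup
  have hs2 := Pool.Agent.Rho.le_msum (fun A : Multiset G => A.card + A.count 0) 2 YS hlo
  rw [Multiset.sum_map_add, Multiset.sum_map_mul_left] at hs1
  rw [Multiset.sum_map_add] at hs2
  have cM1 : (XS.map (fun A => A.card)).sum = XS.sum.card := (Pool.Agent.Rho.card_msum XS).symm
  have cM2 : (YS.map (fun A => A.card)).sum = XS.sum.card := by
    rw [h]; exact (Pool.Agent.Rho.card_msum YS).symm
  have zM1 : (XS.map (fun A => A.count 0)).sum = XS.sum.count 0 :=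
    (Pool.Agent.Rho.count_msum 0 XS).symm
  have zM2 : (YS.map (fun A => A.count 0)).sum = XS.sum.count 0 := by
    rw [h]; exact (Pool.Agent.Rho.count_msum 0 YS).symm
  rw [cM1, zM1, cX] at hs1
  rw [cM2, zM2] at hs2
  have h3 : XS.sum.count 0 ≤ (D - 1) * XS.sum.count 0 := Nat.le_mul_of_pos_left _ (by omega)
  have h4 : (2 * k + 1) * D = 2 * (k * D) + D := by ring
  rw [h4] at hs1
  omega

/-- If no product of `2k+1` atoms over `G` is a product of `k D + ⌊D/2⌋` atoms, then
`ρ_{2k+1}` of all Krull monoids with class group `G` is smaller than `k D + ⌊D/2⌋`. -/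
lemma rho_lt {G : Type} [AddCommGroup G] [DecidableEq G] {D : ℕ} (hD : 2 ≤ D)
    (hG : ∀ A : Multiset G, MinZeroSum A → Multiset.card A ≤ D) (k : ℕ)
    (hno : ∀ XS YS : Multiset (Multiset G), (∀ A ∈ XS, MinZeroSum A) →
      (∀ A ∈ YS, MinZeroSum A) → Multiset.card XS = 2 * k + 1 →
      Multiset.card YS = k * D + D / 2 → XS.sum = YS.sum → False)
    {H : Type u} [CommMonoid H] {P : Type v} (T : DivisorTheory H P)
    (e : T.ClassGroup ≃+ G) : rho H (2 * k + 1) < ((k * D + D / 2 : ℕ) : ℕ∞) := by
  have h1 : 1 ≤ D / 2 := by omega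
  have h2 : rho H (2 * k + 1) ≤ ((k * D + D / 2 - 1 : ℕ) : ℕ∞) := by
    apply sSup_le
    rintro x ⟨a, hk, l, hl, rfl⟩
    obtain ⟨XS, YS, hX, hY, cX, cY, hXY⟩ := T.transfer e hk hl (by omega)
    have h3 := length_le hD hG k XS YS hX hY cX hXY
    have h4 : l ≠ k * D + D / 2 := fun h => hno XS YS hX hY cX (by rw [cY, h]) hXY
    have h5 : l ≤ k * D + D / 2 - 1 := by omega
    exact_mod_cast h5
  refine lt_of_le_of_lt h2 ?_
  have h6 : k * D + D / 2 - 1 < k * D + D / 2 := by omega
  exact_mod_cast h6

/-! ### The monoid of zero-sum sequences -/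

section blocks
variable (G : Type) [AddCommGroup G]

/-- The monoid of zero-sum sequences over `G` (written multiplicatively). -/
abbrev Blocks : Type := Multiplicative (AddMonoidHom.mker (Multiset.sumAddMonoidHom : Multiset G →+ G))

variable {G}

/-- A zero-sum sequence. -/
def mkB (m : Multiset G) (h : m.sum = 0) : Blocks G := Multiplicative.ofAdd ⟨m, h⟩

/-- The underlying sequence. -/
def unB (a : Blocks G) : Multiset G := (Multiplicative.toAdd a).1

lemma unB_sum (a : Blocks G) : (unB a).sum = 0 := (Multiplicative.toAdd a).2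

/-- The divisor theory of the monoid of zero-sum sequences. -/
def blockTheory (hG : ∀ q : G, ∃ h : G, h ≠ 0 ∧ h ≠ -q) : DivisorTheory (Blocks G) G where
  φ := unB
  map_one := rfl
  map_mul _ _ := rfl
  dvd_of_le a b hab := by
    obtain ⟨n, hn⟩ := Multiset.le_iff_exists_add.mp hab
    have hs : n.sum = 0 := by
      have h1 := unB_sum b
      rw [hn, Multiset.sum_add, unB_sum a, zero_add] at h1
      exact h1
    refine ⟨mkB n hs, ?_⟩
    apply Multiplicative.toAdd.injective
    apply Subtype.ext
    exact hn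
  gcd_eq q := by
    classical
    by_cases hq : q = 0
    · subst hq
      refine ⟨{mkB {0} (by simp)}, fun m => ?_⟩
      simp only [Finset.mem_singleton, forall_eq]
      rfl
    · obtain ⟨h, h0, h1⟩ := hG q
      refine ⟨{mkB {q, -q} (by simp), mkB {q, h, -q - h} (by simp)}, fun m => ?_⟩
      simp only [Finset.mem_insert, Finset.mem_singleton, forall_eq_or_imp, forall_eq]
      constructor
      · rintro ⟨a1, a2⟩
        have a1' : m ≤ {q, -q} := a1
        have a2' : m ≤ {q, h, -q - h} := a2
        rw [Multiset.le_iff_count]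
        intro x
        have c1 := Multiset.le_iff_count.mp a1' x
        have c2 := Multiset.le_iff_count.mp a2' x
        have e2 : -q ≠ -q - h := by
          intro h'
          apply h0
          have : -q - h = -q - 0 := by rw [sub_zero]; exact h'.symm
          exact sub_right_injective this
        simp only [Multiset.insert_eq_cons, Multiset.count_cons, Multiset.count_singleton] at c1 c2 ⊢
        by_cases hx : x = q
        · subst hx
          by_cases hx' : x = -x
          · have h3 : x ≠ h := by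
              intro h4; apply h1; rw [← h4]; exact hx'
            have h5 : x ≠ -x - h := by
              intro h4; apply e2; rw [← h4]; exact hx'.symm
            rw [if_neg h3, if_neg h5] at c2
            simpa using c2
          · rw [if_neg hx'] at c1
            simpa using c1
        · rw [if_neg hx] at c1 c2 ⊢
          by_cases hx' : x = -q
          · subst hx'
            rw [if_neg e2, if_neg (fun h4 => h1 h4.symm)] at c2
            simpa using c2
          · rw [if_neg hx'] at c1
            simpa using c1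
      · intro hm
        exact ⟨hm.trans (show ({q} : Multiset G) ≤ {q, -q} by simp [Multiset.insert_eq_cons]),
          hm.trans (show ({q} : Multiset G) ≤ {q, h, -q - h} by simp [Multiset.insert_eq_cons])⟩

/-- The sum of a formal combination. -/
noncomputable def sigma : (G →₀ ℤ) →+ G := Finsupp.liftAddHom fun g => (zmultiplesHom G g)

lemma sigma_single (g : G) (n : ℤ) : sigma (Finsupp.single g n) = n • g := by
  simp [sigma]

lemma sigma_toInt (m : Multiset G) : sigma (toInt m) = m.sum := by
  induction m using Multiset.induction with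
  | empty => simp [toInt_zero]
  | cons a m ih =>
    rw [← Multiset.singleton_add, toInt_add, map_add, ih, toInt_singleton, sigma_single]
    simp

lemma sigma_surjective : Function.Surjective (sigma : (G →₀ ℤ) →+ G) := fun g =>
  ⟨Finsupp.single g 1, by rw [sigma_single, one_zsmul]⟩

lemma ker_sigma (hG : ∀ q : G, ∃ h : G, h ≠ 0 ∧ h ≠ -q) :
    AddSubgroup.closure (Set.range fun a : Blocks G => toInt ((blockTheory hG).φ a)) =
      (sigma : (G →₀ ℤ) →+ G).ker := by
  apply le_antisymm
  · rw [AddSubgroup.closure_le]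
    rintro _ ⟨a, rfl⟩
    show sigma (toInt (unB a)) = 0
    rw [sigma_toInt, unB_sum]
  · intro x hx
    obtain ⟨m, n, rfl⟩ := exists_sub x
    have h1 : sigma (toInt m - toInt n) = 0 := hx
    rw [map_sub, sigma_toInt, sigma_toInt, sub_eq_zero] at h1
    have e1 : toInt m - toInt n = toInt (m + {-n.sum}) - toInt (n + {-n.sum}) := by
      rw [toInt_add, toInt_add]; abel
    rw [e1]
    refine AddSubgroup.sub_mem _ (AddSubgroup.subset_closure ⟨mkB (m + {-n.sum}) ?_, rfl⟩)
      (AddSubgroup.subset_closure ⟨mkB (n + {-n.sum}) ?_, rfl⟩)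
    · rw [Multiset.sum_add, Multiset.sum_singleton, h1, add_neg_cancel]
    · rw [Multiset.sum_add, Multiset.sum_singleton, add_neg_cancel]

/-- The class group of the monoid of zero-sum sequences over `G` is `G`. -/
noncomputable def blockEquiv (hG : ∀ q : G, ∃ h : G, h ≠ 0 ∧ h ≠ -q) :
    (blockTheory hG).ClassGroup ≃+ G :=
  (QuotientAddGroup.quotientAddEquivOfEq (ker_sigma hG)).trans
    (QuotientAddGroup.quotientKerEquivOfSurjective sigma sigma_surjective)

lemma blockEquiv_apply (hG : ∀ q : G, ∃ h : G, h ≠ 0 ∧ h ≠ -q) (x : G →₀ ℤ) :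
    blockEquiv hG (QuotientAddGroup.mk x) = sigma x := rfl

lemma blocks_exist (hc : ¬ IsAddCyclic G) :
    ∃ (H : Type) (_ : CommMonoid H) (_ : IsCancelMul H) (T : DivisorTheory H G),
      Nonempty (T.ClassGroup ≃+ G) ∧
      ∀ x : T.ClassGroup, ∃ q : G, (QuotientAddGroup.mk (Finsupp.single q 1) : T.ClassGroup) = x := by
  have hG : ∀ q : G, ∃ h : G, h ≠ 0 ∧ h ≠ -q := by
    intro q
    by_contra hcon
    push Not at hcon
    apply hc
    refine ⟨-q, fun x => ?_⟩
    by_cases hx : x = 0
    · rw [hx]; exact ⟨0, by simp⟩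
    · rw [hcon x hx]; exact ⟨1, by simp⟩
  refine ⟨Blocks G, inferInstance, ?_, blockTheory hG, ⟨blockEquiv hG⟩, ?_⟩
  · refine { mul_left_cancel := ?_, mul_right_cancel := ?_ }
    · intro a b c h
      apply Multiplicative.toAdd.injective
      apply Subtype.ext
      have h' : unB a + unB b = unB a + unB c := congrArg unB h
      exact add_left_cancel h'
    · intro a b c h
      apply Multiplicative.toAdd.injective
      apply Subtype.ext
      have h' : unB b + unB a = unB c + unB a := congrArg unB h
      exact add_right_cancel h'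
  · intro x
    refine ⟨blockEquiv hG x, ?_⟩
    apply (blockEquiv hG).injective
    rw [blockEquiv_apply, sigma_single, one_zsmul]

end blocks

/-! ### Transport along an isomorphism -/

section transport
variable {G K : Type} [AddCommGroup G] [AddCommGroup K]

lemma MinZeroSum.map [DecidableEq K] (E : G ≃+ K) {A : Multiset G} (hA : MinZeroSum A) :
    MinZeroSum (A.map E) := by
  refine ⟨?_, ?_, ?_⟩
  · intro h
    exact hA.1 (Multiset.map_eq_zero.mp h)
  · rw [← map_multiset_sum, hA.2.1, map_zero]
  · intro B hB hne hs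
    obtain ⟨B', hB', rfl⟩ := Pool.Agent.Rho.exists_le_of_le_map E A B hB
    rw [hA.2.2 B' hB' (by rintro rfl; simp at hne) (by
      rw [← map_multiset_sum] at hs
      exact (map_eq_zero_iff E E.injective).mp hs)]

/-- A group with a homomorphism onto `C_2^2` is not cyclic. -/
lemma not_cyclic_of {G : Type} [AddCommGroup G] (f : G → ZMod 2 × ZMod 2)
    (hf : ∀ x y, f (x + y) = f x + f y) (hs : Function.Surjective f) : ¬ IsAddCyclic G := by
  rintro ⟨g, hg⟩
  let F : G →+ ZMod 2 × ZMod 2 := AddMonoidHom.mk' f hf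
  have key : ∀ x : ZMod 2 × ZMod 2, x = 0 ∨ x = F g := by
    intro x
    obtain ⟨y, rfl⟩ := hs x
    obtain ⟨n, rfl⟩ := hg y
    have h1 : f (n • g) = n • F g := map_zsmul F n g
    have h2 : ∀ z : ZMod 2 × ZMod 2, z + z = 0 := by decide
    show f (n • g) = 0 ∨ f (n • g) = F g
    rw [h1]
    rcases Int.even_or_odd' n with ⟨m, rfl | rfl⟩
    · left
      rw [mul_comm, mul_zsmul, two_zsmul, h2, zsmul_zero]
    · right
      rw [add_zsmul, one_zsmul, mul_comm, mul_zsmul, two_zsmul, h2, zsmul_zero, zero_add]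
  have h3 : ∀ w : ZMod 2 × ZMod 2, ¬ ∀ x : ZMod 2 × ZMod 2, x = 0 ∨ x = w := by decide
  exact h3 _ key

end transport

/-! ### The isomorphisms -/

/-- `C_2^4 ⊕ C_2 ≅ C_2^5` -/
def fiveE : (Fin 4 → ZMod 2) × ZMod 2 ≃+ Pool.Agent.Rho.V5 where
  toFun x := (x.1 0, x.1 1, x.1 2, x.1 3, x.2)
  invFun w := (![w.1, w.2.1, w.2.2.1, w.2.2.2.1], w.2.2.2.2)
  left_inv x := by
    refine Prod.ext ?_ rfl
    funext i
    fin_cases i <;> rfl
  right_inv w := rfl
  map_add' x y := rfl

/-- `C_2^4 ⊕ C_2p ≅ C_2^5 ⊕ C_p` -/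
noncomputable def e2 (p : ℕ) (hp : Nat.Coprime 2 p) :
    (Fin 4 → ZMod 2) × ZMod (2 * p) ≃+ Pool.Agent.Rho.V5 × ZMod p :=
  ((AddEquiv.refl (Fin 4 → ZMod 2)).prodCongr
    (ZMod.chineseRemainder hp).toAddEquiv).trans
    ((AddEquiv.prodAssoc).symm.trans (fiveE.prodCongr (AddEquiv.refl (ZMod p))))

/-- **Q1 is false for an infinite family of groups of rank five, for every `k`.** For every prime
`p > 4000` the finite group `G = C_2^4 ⊕ C_2p` is not cyclic and has Davenport constant `2p+5`;
every Krull monoid `H` with class group `G` satisfies `ρ_{2k+1}(H) < k (2p+5) + ⌊(2p+5)/2⌋` for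
**all** `k`; and there is a Krull monoid with class group `G` in which each class contains a prime
divisor. -/
theorem result (p : ℕ) (hp : p.Prime) (h4 : 4000 < p) :
    ¬ IsAddCyclic ((Fin 4 → ZMod 2) × ZMod (2 * p)) ∧
    IsGreatest {n : ℕ | ∃ A : Multiset ((Fin 4 → ZMod 2) × ZMod (2 * p)),
      MinZeroSum A ∧ Multiset.card A = n} (2 * p + 5) ∧
    (∀ (H : Type u) [CommMonoid H] [IsCancelMul H] (P : Type v) (T : DivisorTheory H P),
      Nonempty (T.ClassGroup ≃+ (Fin 4 → ZMod 2) × ZMod (2 * p)) →
        ∀ k : ℕ, rho H (2 * k + 1) < ((k * (2 * p + 5) + (2 * p + 5) / 2 : ℕ) : ℕ∞)) ∧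
    (∃ (H : Type) (_ : CommMonoid H) (_ : IsCancelMul H) (P : Type) (T : DivisorTheory H P),
      Nonempty (T.ClassGroup ≃+ (Fin 4 → ZMod 2) × ZMod (2 * p)) ∧
      ∀ x : T.ClassGroup, ∃ q : P,
        (QuotientAddGroup.mk (Finsupp.single q 1) : T.ClassGroup) = x) := by
  have : Fact p.Prime := ⟨hp⟩
  have hcop : Nat.Coprime 2 p := (Nat.coprime_primes Nat.prime_two hp).mpr (by omega)
  have hc : ¬ IsAddCyclic ((Fin 4 → ZMod 2) × ZMod (2 * p)) := by
    refine not_cyclic_of (fun x => (x.1 0, x.1 1)) (fun _ _ => rfl) ?_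
    rintro ⟨a, b⟩
    exact ⟨(Fin.cons a (fun _ => b), 0), rfl⟩
  have hle : ∀ A : Multiset (Pool.Agent.Rho.V5 × ZMod p), MinZeroSum A →
      Multiset.card A ≤ 2 * p + 5 := by
    intro A hA
    by_contra hcon
    have := (Pool.Agent.Rho.structure_theorem h4 Pool.Agent.Rho.V5_two Pool.Agent.Rho.V5_card
      (A := A) hA (by omega)).1
    omega
  refine ⟨hc, ⟨?_, ?_⟩, ?_, ?_⟩
  · refine ⟨(Pool.Agent.Rho.longAtom p).map (e2 p hcop).symm, ?_, ?_⟩
    · exact MinZeroSum.map (e2 p hcop).symm (Pool.Agent.Rho.longAtom_atom p h4)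
    · rw [Multiset.card_map, Pool.Agent.Rho.longAtom_card p (by omega)]
  · rintro n ⟨A, hA, rfl⟩
    have := hle _ (hA.map (e2 p hcop))
    rwa [Multiset.card_map] at this
  · rintro H _ _ P T ⟨e⟩ k
    refine rho_lt (by omega) hle k ?_ T (e.trans (e2 p hcop))
    intro XS YS hX hY cX cY h
    refine Pool.Agent.Rho.no_factorization h4 Pool.Agent.Rho.V5_two Pool.Agent.Rho.V5_card k
      XS YS hX hY cX ?_ h
    rw [cY]
    omega
  · obtain ⟨H, h1, h2, T, h3, h4⟩ := blocks_exist hc
    exact ⟨H, h1, h2, _, T, h3, h4⟩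

end Pool.Agent.Results.MP_bb931d_co.RankFive
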